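import Pool.Agent.REV.StmtsG2

set_option autoImplicit false

/-!
# Squad REV, row PJW: polar coordinates in the half disc
-/

open MeasureTheory Module Set Filter
open scoped RealInnerProductSpace Pointwise Topology ENNReal

namespace Pool.Agent.REV.H91

/-- The integrand on the plane. -/
noncomputable def pjF (m : ℕ) (ψ : ℝ → ℝ) (p : ℝ × ℝ) : ℝ :=
  if 0 < p.2 ∧ p.2 ^ 2 + p.1 ^ 2 < 1 then
    p.2 ^ m * ψ (p.1 / Real.sqrt (p.2 ^ 2 + p.1 ^ 2)) else 0

theorem pjF_measurable (m : ℕ) {ψ : ℝ → ℝ} (hψ : Measurable ψ) : Measurable (pjF m ψ) := by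
  unfold pjF
  refine Measurable.ite ?_ ?_ measurable_const
  · exact (measurableSet_lt measurable_const measurable_snd).inter
      (measurableSet_lt ((measurable_snd.pow_const 2).add (measurable_fst.pow_const 2))
        measurable_const)
  · exact (measurable_snd.pow_const m).mul
      (hψ.comp (measurable_fst.div
        ((measurable_snd.pow_const 2).add (measurable_fst.pow_const 2)).sqrt))

theorem pjF_bound (m : ℕ) {ψ : ℝ → ℝ} {C : ℝ} (hC : ∀ x, |ψ x| ≤ C) (p : ℝ × ℝ) :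
    ‖pjF m ψ p‖ ≤ C := by
  have hC0 : 0 ≤ C := le_trans (abs_nonneg _) (hC 0)
  unfold pjF
  split_ifs with h
  · have h1 : p.2 ≤ 1 := by nlinarith [h.1, h.2, sq_nonneg p.1]
    rw [Real.norm_eq_abs, abs_mul, abs_pow, abs_of_pos h.1]
    calc p.2 ^ m * |ψ (p.1 / Real.sqrt (p.2 ^ 2 + p.1 ^ 2))| ≤ 1 * C :=
          mul_le_mul (pow_le_one₀ h.1.le h1) (hC _) (abs_nonneg _) zero_le_one
      _ = C := one_mul C
  · simpa using hC0

theorem pjF_support (m : ℕ) (ψ : ℝ → ℝ) :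
    Function.support (pjF m ψ) ⊆ Icc (-1 : ℝ) 1 ×ˢ Icc (-1 : ℝ) 1 := by
  intro p hp
  rw [Function.mem_support] at hp
  unfold pjF at hp
  split_ifs at hp with h
  · have h1 : p.2 ^ 2 ≤ 1 := by nlinarith [h.2, sq_nonneg p.1]
    have h2 : p.1 ^ 2 ≤ 1 := by nlinarith [h.2, sq_nonneg p.2]
    exact ⟨abs_le.1 (abs_le_one_iff_mul_self_le_one.2 (by nlinarith)),
      abs_le.1 (abs_le_one_iff_mul_self_le_one.2 (by nlinarith))⟩
  · exact absurd rfl hp

theorem pjF_integrable (m : ℕ) {ψ : ℝ → ℝ} (hψ : BM ψ) : Integrable (pjF m ψ) := by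
  obtain ⟨hm, C, hC⟩ := hψ
  rw [← integrableOn_iff_integrable_of_support_subset (pjF_support m ψ)]
  refine Measure.integrableOn_of_bounded (M := C) ?_ (pjF_measurable m hm).aestronglyMeasurable
    (Eventually.of_forall fun p => pjF_bound m hC p)
  rw [Measure.volume_eq_prod, Measure.prod_prod, Real.volume_Icc]
  exact ENNReal.mul_ne_top ENNReal.ofReal_ne_top ENNReal.ofReal_ne_top

theorem pj_inner (m : ℕ) (ψ : ℝ → ℝ) (z : ℝ) :
    ∫ r in Ioi (0 : ℝ), (if r ^ 2 + z ^ 2 < 1 then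
      r ^ m * ψ (z / Real.sqrt (r ^ 2 + z ^ 2)) else 0) = ∫ r : ℝ, pjF m ψ (z, r) := by
  rw [← integral_indicator measurableSet_Ioi]
  congr 1
  funext r
  unfold pjF
  by_cases hr : 0 < r
  · rw [indicator_of_mem (show r ∈ Ioi (0 : ℝ) from hr)]
    simp [hr]
  · rw [indicator_of_notMem (show r ∉ Ioi (0 : ℝ) from hr)]
    simp [hr]

theorem pj_polar (m : ℕ) (ψ : ℝ → ℝ) (p : ℝ × ℝ) (hp : p ∈ polarCoord.target) :
    p.1 • pjF m ψ (polarCoord.symm p) =
      (if p.1 < 1 then p.1 ^ (m + 1) else 0) *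
        (if 0 < p.2 then Real.sin p.2 ^ m * ψ (Real.cos p.2) else 0) := by
  obtain ⟨R, θ⟩ := p
  simp only [polarCoord_target, mem_prod, mem_Ioi, mem_Ioo] at hp
  obtain ⟨hR, hθ1, hθ2⟩ := hp
  have hs : polarCoord.symm (R, θ) = (R * Real.cos θ, R * Real.sin θ) := by
    simp
  rw [hs]
  unfold pjF
  simp only [smul_eq_mul]
  have hsq : (R * Real.sin θ) ^ 2 + (R * Real.cos θ) ^ 2 = R ^ 2 := by
    have := Real.sin_sq_add_cos_sq θ
    linear_combination R ^ 2 * this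
  rw [hsq, Real.sqrt_sq hR.le]
  by_cases hθ : 0 < θ
  · have hsin : 0 < Real.sin θ := Real.sin_pos_of_pos_of_lt_pi hθ hθ2
    by_cases h1 : R < 1
    · have hR2 : R ^ 2 < 1 := by nlinarith
      rw [if_pos ⟨mul_pos hR hsin, hR2⟩, if_pos h1, if_pos hθ, mul_div_cancel_left₀ _ hR.ne']
      ring
    · have hR2 : ¬ R ^ 2 < 1 := by
        push Not at h1 ⊢
        nlinarith
      rw [if_neg (fun h => hR2 h.2), if_neg h1]
      simp
  · have hsin : Real.sin θ ≤ 0 := by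
      push Not at hθ
      exact Real.sin_nonpos_of_nonpos_of_neg_pi_le hθ hθ1.le
    have : ¬ 0 < R * Real.sin θ := by
      push Not
      exact mul_nonpos_of_nonneg_of_nonpos hR.le hsin
    rw [if_neg (fun h => this h.1), if_neg hθ]
    simp

theorem pj_radial (m : ℕ) :
    ∫ R in Ioi (0 : ℝ), (if R < 1 then R ^ (m + 1) else 0) = ((m : ℝ) + 2)⁻¹ := by
  have h1 : ∀ R : ℝ, (if R < 1 then R ^ (m + 1) else 0) =
      (Iio (1 : ℝ)).indicator (fun R => R ^ (m + 1)) R := by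
    intro R
    by_cases h : R < 1
    · rw [if_pos h, indicator_of_mem (show R ∈ Iio (1 : ℝ) from h)]
    · rw [if_neg h, indicator_of_notMem (show R ∉ Iio (1 : ℝ) from h)]
  simp only [h1]
  rw [setIntegral_indicator measurableSet_Iio, Ioi_inter_Iio, ← integral_Ioc_eq_integral_Ioo,
    ← intervalIntegral.integral_of_le zero_le_one, integral_pow]
  simp only [one_pow, ne_eq, Nat.add_eq_zero_iff, one_ne_zero, and_false, not_false_eq_true,
    zero_pow, sub_zero, one_div, Nat.cast_add, Nat.cast_one]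
  congr 1
  ring

theorem pj_angular (m : ℕ) (ψ : ℝ → ℝ) :
    ∫ θ in Ioo (-Real.pi) Real.pi,
      (if 0 < θ then Real.sin θ ^ m * ψ (Real.cos θ) else 0) =
      ∫ θ in Ioo (0 : ℝ) Real.pi, Real.sin θ ^ m * ψ (Real.cos θ) := by
  have h1 : ∀ θ : ℝ, (if 0 < θ then Real.sin θ ^ m * ψ (Real.cos θ) else 0) =
      (Ioi (0 : ℝ)).indicator (fun θ => Real.sin θ ^ m * ψ (Real.cos θ)) θ := by
    intro θ
    by_cases h : 0 < θ
    · rw [if_pos h, indicator_of_mem (show θ ∈ Ioi (0 : ℝ) from h)]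
    · rw [if_neg h, indicator_of_notMem (show θ ∉ Ioi (0 : ℝ) from h)]
  simp only [h1]
  rw [setIntegral_indicator measurableSet_Ioi]
  congr 2
  ext θ
  simp only [mem_inter_iff, mem_Ioo, mem_Ioi]
  constructor
  · rintro ⟨⟨_, h2⟩, h3⟩
    exact ⟨h3, h2⟩
  · rintro ⟨h2, h3⟩
    exact ⟨⟨by linarith [Real.pi_pos], h3⟩, h2⟩

theorem pj_image : Real.cos '' Ioo (0 : ℝ) Real.pi = Ioo (-1 : ℝ) 1 := by
  ext x
  constructor
  · rintro ⟨θ, ⟨h1, h2⟩, rfl⟩
    have hs := Real.sin_pos_of_pos_of_lt_pi h1 h2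
    have := Real.sin_sq_add_cos_sq θ
    constructor <;> nlinarith [Real.cos_le_one θ, Real.neg_one_le_cos θ]
  · rintro ⟨h1, h2⟩
    refine ⟨Real.arccos x, ⟨Real.arccos_pos.2 h2, ?_⟩, Real.cos_arccos h1.le h2.le⟩
    rcases lt_or_eq_of_le (Real.arccos_le_pi x) with h | h
    · exact h
    · exfalso
      have := Real.cos_arccos h1.le h2.le
      rw [h, Real.cos_pi] at this
      linarith

theorem pj_subst (m : ℕ) (hm : 1 ≤ m) (ψ : ℝ → ℝ) :
    ∫ θ in Ioo (0 : ℝ) Real.pi, Real.sin θ ^ m * ψ (Real.cos θ) =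
      ∫ x in (-1 : ℝ)..1, (1 - x ^ 2) ^ (((m : ℝ) - 1) / 2) * ψ x := by
  rw [intervalIntegral.integral_of_le (by norm_num : (-1 : ℝ) ≤ 1), integral_Ioc_eq_integral_Ioo,
    ← pj_image, integral_image_eq_integral_abs_deriv_smul (f' := fun θ => -Real.sin θ)
      measurableSet_Ioo (fun θ _ => (Real.hasDerivAt_cos θ).hasDerivWithinAt)
      (Real.injOn_cos.mono Ioo_subset_Icc_self)]
  refine setIntegral_congr_fun measurableSet_Ioo ?_
  rintro θ ⟨h1, h2⟩
  have hs := Real.sin_pos_of_pos_of_lt_pi h1 h2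
  simp only [smul_eq_mul, abs_neg]
  rw [abs_of_pos hs]
  have e1 : 1 - Real.cos θ ^ 2 = Real.sin θ ^ 2 := by
    have := Real.sin_sq_add_cos_sq θ
    linarith
  have e2 : (Real.sin θ ^ 2) ^ (((m : ℝ) - 1) / 2) = Real.sin θ ^ (m - 1) := by
    rw [← Real.rpow_natCast (Real.sin θ) 2, ← Real.rpow_mul hs.le,
      ← Real.rpow_natCast (Real.sin θ) (m - 1)]
    congr 1
    rw [Nat.cast_sub hm]
    push_cast
    ring
  rw [e1, e2]
  have e3 : Real.sin θ ^ m = Real.sin θ * Real.sin θ ^ (m - 1) := by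
    rw [← pow_succ']
    congr 1
    omega
  rw [e3]
  ring

/-- (PJW) -/
theorem pjw : PjwStmt := by
  intro m hm ψ hψ
  calc ∫ z : ℝ, ∫ r in Ioi (0 : ℝ), (if r ^ 2 + z ^ 2 < 1 then
      r ^ m * ψ (z / Real.sqrt (r ^ 2 + z ^ 2)) else 0)
      = ∫ z : ℝ, ∫ r : ℝ, pjF m ψ (z, r) := by
        congr 1
        funext z
        exact pj_inner m ψ z
    _ = ∫ p : ℝ × ℝ, pjF m ψ p := by
        rw [Measure.volume_eq_prod, integral_prod _ (by
          rw [← Measure.volume_eq_prod]; exact pjF_integrable m hψ)]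
    _ = ∫ p in polarCoord.target, p.1 • pjF m ψ (polarCoord.symm p) :=
        (integral_comp_polarCoord_symm (pjF m ψ)).symm
    _ = ∫ p in polarCoord.target, (if p.1 < 1 then p.1 ^ (m + 1) else 0) *
        (if 0 < p.2 then Real.sin p.2 ^ m * ψ (Real.cos p.2) else 0) :=
        setIntegral_congr_fun (polarCoord.open_target.measurableSet)
          (fun p hp => pj_polar m ψ p hp)
    _ = (∫ R in Ioi (0 : ℝ), (if R < 1 then R ^ (m + 1) else 0)) *
        ∫ θ in Ioo (-Real.pi) Real.pi,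
          (if 0 < θ then Real.sin θ ^ m * ψ (Real.cos θ) else 0) := by
        rw [polarCoord_target, Measure.volume_eq_prod]
        exact setIntegral_prod_mul (fun R : ℝ => if R < 1 then R ^ (m + 1) else 0)
          (fun θ : ℝ => if 0 < θ then Real.sin θ ^ m * ψ (Real.cos θ) else 0) _ _
    _ = _ := by
        rw [pj_radial, pj_angular, pj_subst m hm ψ]

end Pool.Agent.REV.H91
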